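import Pool.Agent.Lib.MP_a78e1f_lc.U.Iface
import Pool.Agent.Lib.MP_c5d73d_lc.F.H36.Reals
import Pool.Agent.Lib.MP_e6fef2_lc.V.H21.Om1

/-!
# VC: names of points of the Cantor space; the set of all `x t` has cardinality `ℵ₁`
-/

universe u

open Cardinal

open scoped symmDiff

namespace Pool.Agent.Lib.MP_a78e1f_lc.H97

open Pool.Agent.Lib.MP_100a6c_lc
open Pool.Agent.Lib.MP_e6fef2_lc
open BName
open H36 (om nn)

variable {B : Type u} [CompleteBooleanAlgebra B]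

theorem rlN_eq (x : ℕ → B) : rlN x = MP_c5d73d_lc.F.rn x := rfl

theorem bihimp_eq' (a b : B) : (a ⇔ b) = (a ⊓ b) ⊔ (aᶜ ⊓ bᶜ) := by
  rw [bihimp, himp_eq, himp_eq, inf_sup_left, inf_sup_right, inf_sup_right, inf_compl_self,
    bot_sup_eq, inf_comm bᶜ b, inf_compl_self, sup_bot_eq, inf_comm bᶜ]

theorem eqr_eq (x y : ℕ → B) : eqr x y = ⨅ n, (x n ⇔ y n) :=
  iInf_congr fun n => (bihimp_eq' (x n) (y n)).symm

theorem beq_rlN (x y : ℕ → B) : beq (rlN x) (rlN y) = eqr x y := by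
  rw [eqr_eq]
  exact MP_c5d73d_lc.F.H36.beq_rn_rn x y

theorem agb_rlN (x y : ℕ → B) (n : ℕ) :
    agb (VB B) (check (nn n)) (rlN x) (rlN y) = agn n x y := by
  have h1 : Ext (fun k : BName B => (VB B).mem k (rlN x) ⇔ (VB B).mem k (rlN y)) :=
    (ext_VBmem_left _).bihimp (ext_VBmem_left _)
  rw [agb, iInf_VBcheck h1, agn]
  refine le_antisymm (le_iInf fun k => le_iInf fun hk => ?_) (le_iInf fun z => le_iInf fun hz => ?_)
  · refine (iInf_le_of_le (nn k) (iInf_le_of_le (H36.nn_mem_nn hk) ?_))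
    rw [VB_mem, VB_mem, rlN_eq, rlN_eq, MP_c5d73d_lc.F.H36.nn_mem_rn,
      MP_c5d73d_lc.F.H36.nn_mem_rn]
  · obtain ⟨k, hk, rfl⟩ := H36.mem_nn.1 hz
    refine iInf_le_of_le k (iInf_le_of_le hk ?_)
    rw [VB_mem, VB_mem, rlN_eq, rlN_eq, MP_c5d73d_lc.F.H36.nn_mem_rn,
      MP_c5d73d_lc.F.H36.nn_mem_rn]

theorem mem_stN {T : Type u} (x : T → ℕ → B) (z : BName B) :
    bmem z (stN x) = ⨆ t, beq z (rlN (x t)) := by
  rw [stN, mem_mk]
  exact iSup_congr fun t => top_inf_eq _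

theorem rlN_mem_stN {T : Type u} (x : T → ℕ → B) (t : T) : bmem (rlN (x t)) (stN x) = ⊤ := by
  rw [mem_stN, eq_top_iff]
  refine le_iSup_of_le t ?_
  rw [beq_refl]

/-- the name of a point of the ground model -/
def gpt (r : ℕ → Bool) : ℕ → B := fun n => if r n then ⊤ else ⊥

theorem beq_gpt {r s : ℕ → Bool} (h : r ≠ s) : beq (rlN (gpt (B := B) r)) (rlN (gpt s)) = ⊥ := by
  obtain ⟨n, hn⟩ := Function.ne_iff.1 h
  rw [beq_rlN, eqr_eq, eq_bot_iff]
  refine (iInf_le _ n).trans ?_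
  cases hr : r n <;> cases hs : s n <;> simp_all [gpt]

theorem exists_inj : ∃ g : W.{u} → ℕ → Bool, Function.Injective g := by
  have h1 : #W.{u} ≤ #(ULift.{u} (ℕ → Bool)) := by
    rw [mk_ord_toType, Cardinal.mk_uLift]
    have h2 : Cardinal.lift.{u} #(ℕ → Bool) = 𝔠 := by
      simp
    rw [h2]
    exact Cardinal.aleph_one_le_continuum
  obtain ⟨e⟩ := h1
  exact ⟨fun ξ => (e ξ).down, fun ξ η h => e.injective (ULift.down_injective h)⟩

theorem leCard_stN {T : Type u} (x : T → ℕ → B)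
    (hx : ∃ cx : W.{u} → ℕ → B, ∀ t, ⨆ ξ, eqr (x t) (cx ξ) = ⊤) :
    (VB B).leCard (stN x) (check om1) = ⊤ := by
  obtain ⟨cx, hcx⟩ := hx
  rw [eq_top_iff]
  refine le_leCard_of_enum (Y := W.{u}) (t := fun ξ => rlN (cx ξ)) (Cardinal.aleph 1)
    (by rw [mk_ord_toType]) fun z => ?_
  rw [top_inf_eq, mem_stN]
  refine iSup_le fun t => ?_
  have h1 : beq z (rlN (x t)) ≤ beq z (rlN (x t)) ⊓ ⨆ ξ, beq (rlN (x t)) (rlN (cx ξ)) := by
    have h2 : (⨆ ξ, beq (rlN (x t)) (rlN (cx ξ))) = ⊤ := by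
      rw [← hcx t]
      exact iSup_congr fun ξ => beq_rlN _ _
    rw [h2, inf_top_eq]
  refine h1.trans ?_
  rw [inf_iSup_eq]
  exact iSup_mono fun ξ => beq_trans _ _ _

theorem leCard_om1_stN (hC : CCV B) {T : Type u} (x : T → ℕ → B)
    (hr : ∀ r : ℕ → Bool, ∃ t, ∀ n, x t n = if r n then ⊤ else ⊥) :
    (VB B).leCard (check om1) (stN x) = ⊤ := by
  obtain ⟨g, hg⟩ := exists_inj.{u}
  obtain ⟨-, -, h3, -, h5⟩ := H21.v_om1 B hC
  rw [eq_top_iff]
  refine le_leCard (Y := W.{u}) (fun ξ => rlN (gpt (g ξ))) (fun ξ z => beq z (wn ξ)) ?_ ?_ ?_ ?_ ?_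
  · intro ξ η hne
    exact beq_gpt fun h => hne (hg h)
  · intro ξ
    obtain ⟨t, ht⟩ := hr (g ξ)
    have h1 : x t = gpt (g ξ) := funext ht
    rw [← h1, rlN_mem_stN]
    exact le_top
  · intro ξ; exact ext_eq_left _
  · intro ξ z z'
    exact (ext_eq_right z).of_le' (x := wn ξ) (inf_le_right.trans inf_le_right)
      (inf_le_right.trans inf_le_left)
  · intro z
    rw [h3 z]
    exact inf_le_right

/-- VC. -/
theorem vc : VcStatement.{u} := by
  intro B _ hC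
  refine ⟨fun x n => MP_c5d73d_lc.F.H36.nn_mem_rn x n, beq_rlN,
    fun y => MP_c5d73d_lc.F.H36.sub_om_le y, agb_rlN, ?_⟩
  intro T x hx hr
  refine ⟨?_, ?_⟩
  · rw [eq_top_iff]
    refine le_iSup_of_le (check om1) ?_
    obtain ⟨h1, -⟩ := H21.v_om1 B hC
    rw [h1, leCard_stN x hx, leCard_om1_stN hC x hr]
    simp
  · rw [eq_top_iff]
    refine (le_iInf_mem (φ := fun y : BName B => (VB B).sub y (check om)) (x := stN x)
      (ext_sub_left (check om))).2 fun t => ?_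
    have h1 : (VB B).sub (rlN (x t)) (check om) = ⊤ := MP_c5d73d_lc.F.H36.rn_sub_om (x t)
    exact le_top.trans (eq_top_iff.1 h1)

end Pool.Agent.Lib.MP_a78e1f_lc.H97
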