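import Pool.Agent.Lib.MP_a78e1f_lc.K.Iface
import Pool.Agent.Lib.MP_6d445e_gt.H74.Pri
import Pool.Agent.Lib.MP_6d445e_gt.H63.Meas

/-!
# PRIF: isomorphisms; `PRESS` implies properness
-/

universe u v w

open Cardinal Filter MeasureTheory

namespace Pool.Agent.Lib.MP_a78e1f_lc.H97

open Pool.Agent.Lib.MP_100a6c_lc
open Pool.Agent.Lib.MP_e6fef2_lc
open Pool.Agent.Lib.MP_6d445e_gt (Ult ae IsFN fv ae_pull ae_iInf ae_iSup le_of_ae eq_of_ae)
open Pool.Agent.Lib.MP_6d445e_gt.H74 (iso iso_apply iso_symm_ce club_const club_fun)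

/-! ## Codes of finite sets -/

/-- the code of a finite set -/
def cS (s : Finset ℕ) : ℕ := Finset.equivBitIndices.symm s

theorem dS_cS (s : Finset ℕ) : dS (cS s) = s := Finset.equivBitIndices.apply_symm_apply s

section

variable {A C : Type u} [CompleteBooleanAlgebra A] [CompleteBooleanAlgebra C]

open Classical in
/-- the name of the constant function with value the code of `∅` -/
noncomputable def zF (A : Type u) [CompleteBooleanAlgebra A] : ℕ → ℕ → A :=
  fun _ m => if m = cS ∅ then ⊤ else ⊥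

theorem zF_mem (g : Ult A) (p m : ℕ) : zF A p m ∈ g ↔ m = cS ∅ := by
  unfold zF
  split_ifs with h
  · simp [g.mem_top, h]
  · simp [g.not_bot, h]

theorem isFN_zF : IsFN (zF A) := by
  refine Filter.Eventually.of_forall fun g n => ⟨cS ∅, (zF_mem g n _).2 rfl, fun k hk => ?_⟩
  exact (zF_mem g n k).1 hk

theorem fv_zF (g : Ult A) (p : ℕ) : fv (zF A) g p = cS ∅ := by
  unfold fv
  have : {k | zF A p k ∈ g} = {cS ∅} := by
    ext k
    exact zF_mem g p k
  rw [this]
  exact csInf_singleton _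

theorem slF_zF : SlF 0 (⊤ : A) (zF A) := by
  refine Filter.Eventually.of_forall fun g _ p => ?_
  rw [fv_zF, dS_cS]
  simp

theorem exists_S (hI : ItpfStatement.{u}) {N : Set El.{u}} (hN : N.Countable)
    (h0 : In N (zF A)) : ∃ S : ℕ → ℕ → A, IsFN S ∧ gen A N ≤ gcF N S := by
  classical
  -- the slaloms
  let Q : Set (ℕ → ℕ → A) := {F | In N F ∧ IsFN F ∧ ∃ j, SlF j ⊤ F}
  have hQ : Q.Countable := by
    have h1 : Set.InjOn (fun F : ℕ → ℕ → A => (⟨_, F⟩ : El.{u})) Q := by
      intro F _ F' _ h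
      simpa using h
    exact Set.MapsTo.countable_of_injOn (t := N) (fun F hF => hF.1) h1 hN
  have hne : Q.Nonempty := ⟨zF A, h0, isFN_zF, 0, slF_zF⟩
  obtain ⟨x, hx⟩ := hQ.exists_eq_range hne
  -- the union
  let U : ℕ → ℕ → Ult A → ℕ := fun p m g => cS ((Finset.range m).biUnion fun j => dS (fv (x j) g p))
  have hU : ∀ p m, Measurable (U p m) := by
    intro p m
    induction m with
    | zero =>
      have : U p 0 = fun _ => cS ∅ := by
        funext g
        simp [U]
      rw [this]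
      exact measurable_const
    | succ m ih =>
      have : U p (m + 1) = fun g => (fun a b => cS (dS a ∪ dS b)) (U p m g) (fv (x m) g p) := by
        funext g
        simp only [U, dS_cS]
        rw [Finset.range_add_one, Finset.biUnion_insert, Finset.union_comm]
      rw [this]
      exact MP_6d445e_gt.H63.meas_two (fun a b => cS (dS a ∪ dS b)) ih
        (MP_6d445e_gt.H63.meas_fv (x m) p)
  obtain ⟨S, hS, hSv⟩ := MP_6d445e_gt.H63.exists_fn (A := A) (F := fun g p => U p (p + 1) g)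
    (fun p => hU p (p + 1))
  refine ⟨S, hS, ?_⟩
  have hid : IsCE fun a : A => a := ⟨fun _ _ h => h, fun _ => rfl, fun s => by rw [sSup_eq_iSup]⟩
  obtain ⟨-, -, -, -, -, -, -, -, -, h10, -, -⟩ := hI A A (fun a => a) hid
  unfold gcF
  refine le_inf le_rfl (le_iInf fun F => le_iInf fun hF => le_iInf fun hF' => ?_)
  have hFQ : F ∈ Q := ⟨hF, hF'⟩
  rw [hx] at hFQ
  obtain ⟨j, rfl⟩ := hFQ
  have h1 : capF j S (x j) = ⊤ := by
    refine eq_of_ae ?_
    filter_upwards [h10 j S (x j) hS hF'.1, hSv] with g hg hg'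
    rw [hg]
    refine ⟨fun _ => g.mem_top, fun _ p hp => ?_⟩
    rw [hg', dS_cS]
    intro i hi
    rw [Finset.mem_biUnion]
    exact ⟨j, Finset.mem_range.2 (by omega), hi⟩
  exact le_top.trans (h1.ge.trans (le_iSup (fun n => capF n S (x j)) j))

theorem press_pe (hI : ItpfStatement.{u}) {f : A → C} (hf : IsCE f) (h : PRESS f) : PE f := by
  filter_upwards [h, all_club.2.1, club_const (zF A), club_const (zF C)] with N hN hcN hA hC c hc
  obtain ⟨ftop, fbot, -⟩ := all_alg A C f hf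
  obtain ⟨-, -, -, -, -, -, -, -, -, -, -, -, pmono, -⟩ := all_alg A C f hf
  obtain ⟨S, hS, hgS⟩ := exists_S (A := A) hI hcN hA
  have h3 := hN S c (zF C) (zF A) hS hc hC isFN_zF ⟨0, slF_zF⟩ hA isFN_zF
  have h4 : capF 0 S (zF A) = ⊤ := by
    have hid : IsCE fun a : A => a := ⟨fun _ _ h => h, fun _ => rfl, fun s => by rw [sSup_eq_iSup]⟩
    obtain ⟨-, -, -, -, -, -, -, -, -, h10, -, -⟩ := hI A A (fun a => a) hid
    refine eq_of_ae ?_
    filter_upwards [h10 0 S (zF A) hS isFN_zF] with g hg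
    rw [hg]
    refine ⟨fun _ => g.mem_top, fun _ p _ => ?_⟩
    rw [fv_zF, dS_cS]
    exact Finset.empty_subset _
  have h5 : itpF f c (zF C) (zF A) = prj f c := by
    have h6 : ∀ k, agrF f (zF A) (zF C) k = ⊤ := by
      intro k
      rw [eq_top_iff]
      refine le_iInf fun p => le_iInf fun _ => le_iSup_of_le (cS ∅) ?_
      simp [zF, ftop]
    unfold itpF
    simp only [h6, inf_top_eq, iInf_const]
  rw [h4, h5, inf_top_eq] at h3
  refine (inf_le_inf_right _ hgS).trans (h3.trans (pmono _ _ ?_))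
  exact le_inf ((inf_le_left.trans inf_le_left).trans inf_le_left) (inf_le_left.trans inf_le_right)

theorem isFN_symm {f : A → C} (hf : IsCE f) (hs : Function.Surjective f) {F : ℕ → ℕ → C}
    (hF : IsFN F) : IsFN fun n m => (iso hf hs).symm (F n m) :=
  MP_6d445e_gt.H63.isFN_map (iso_symm_ce hf hs) hF

theorem slF_symm {f : A → C} (hf : IsCE f) (hs : Function.Surjective f) {F : ℕ → ℕ → C} {j : ℕ}
    (hF : SlF j ⊤ F) : SlF j ⊤ fun n m => (iso hf hs).symm (F n m) := by
  have h1 := ae_pull (iso_symm_ce hf hs) hF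
  filter_upwards [h1] with g hg _
  exact hg (Ult.mem_top _)

theorem press_of_surj (hI : ItpfStatement.{u}) {f : A → C} (hf : IsCE f)
    (hs : Function.Surjective f) : PRESS f := by
  have hsymm := iso_symm_ce hf hs
  have hgen := (all_gen C).2 A (fun c => (iso hf hs).symm c) hsymm
  obtain ⟨h1, -, -, -, -, -, -, h8, h9, -, -, -⟩ := hI A C f hf
  have hid : IsCE fun a : C => a := ⟨fun _ _ h => h, fun _ => rfl, fun s => by rw [sSup_eq_iSup]⟩
  obtain ⟨-, -, -, -, -, -, -, -, -, h10, -, -⟩ := hI C C (fun a => a) hid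
  filter_upwards [hgen, club_fun (fun (F : ℕ → ℕ → C) (n m : ℕ) => (iso hf hs).symm (F n m))]
    with N hN hcl S c F Z hS hc hF hFN hFs hZ hZN
  obtain ⟨ftop, fbot, finf, fsup, fle, -, -, fsupN, -, hcp, hpa, -⟩ := all_alg A C f hf
  -- `f (prj f d) = d`
  have hfp : ∀ d : C, f (prj f d) = d := by
    intro d
    obtain ⟨a, rfl⟩ := hs d
    have : prj f (f a) = a := le_antisymm ((hpa _ _).2 le_rfl) ((fle _ _).1 (hcp _))
    rw [this]
  rw [← fle, hfp]
  have hgc : f (gcF N S) ≤ gcF N (fun p m => f (S p m)) := by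
    unfold gcF
    rw [finf]
    refine le_inf (inf_le_left.trans ?_) (inf_le_right.trans ?_)
    · have h2 := (fle _ _).2 hN
      refine h2.trans (le_of_eq ?_)
      show (iso hf hs) ((iso hf hs).symm (gen C N)) = gen C N
      rw [OrderIso.apply_symm_apply]
    · refine le_iInf fun F' => le_iInf fun hF' => le_iInf fun hsF => ?_
      obtain ⟨hFN', j, hj⟩ := hsF
      have h2 : (⨅ F : ℕ → ℕ → A, ⨅ _ : In N F, ⨅ _ : IsFN F ∧ ∃ j, SlF j ⊤ F, ⨆ n, capF n S F) ≤
          ⨆ n, capF n S (fun n m => (iso hf hs).symm (F' n m)) :=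
        iInf_le_of_le _ (iInf_le_of_le (hcl F' hF')
          (iInf_le_of_le ⟨isFN_symm hf hs hFN', j, slF_symm hf hs hj⟩ le_rfl))
      refine ((fle _ _).2 h2).trans ?_
      rw [fsupN]
      refine iSup_mono fun n => ?_
      rw [h9]
      refine le_of_eq ?_
      congr 1
      funext p m
      exact OrderIso.apply_symm_apply (iso hf hs) (F' p m)
  have hit : ∀ k, f (itpF f c F Z) ≤ c ⊓ agrF f Z F k := by
    intro k
    rw [← hfp (c ⊓ agrF f Z F k), fle]
    exact iInf_le _ k
  rw [finf, finf, h9]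
  refine le_inf (le_inf ?_ ?_) ?_
  · exact inf_le_left.trans (inf_le_left.trans hgc)
  · exact inf_le_left.trans (inf_le_right.trans ((hit 0).trans inf_le_left))
  · refine le_of_ae ?_
    have h3 : ∀ᶠ h in ae C, ∀ k, agrF f Z F k ∈ h ↔
        ∀ p < k, fv (fun n m => f (Z n m)) h p = fv F h p :=
      MP_6d445e_gt.ae_all fun k => h1 Z F k hZN hFN
    filter_upwards [h3, h10 0 _ _ (h8 S hS) (h8 Z hZN), h10 0 _ _ (h8 S hS) hFN] with g g1 g2 g3 hg
    rw [g.mem_inf, g.mem_inf] at hg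
    rw [g3]
    intro p hp
    have g4 := g2.1 hg.2 p hp
    have g5 := (g1 (p + 1)).1 (g.mono ((hit (p + 1)).trans inf_le_right) hg.1.2) p (Nat.lt_succ_self p)
    rwa [g5] at g4

end

/-- **PRIF** -/
theorem prif (hI : ItpfStatement.{u}) : PrifStatement.{u} := fun _ _ _ _ _ hf =>
  ⟨press_of_surj hI hf, press_pe hI hf⟩

end Pool.Agent.Lib.MP_a78e1f_lc.H97
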